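import Pool.Agent.H15.IX.TE

/-!
Board idx_modules, row WN2: the pole order of the part with a break at `j`.
-/

set_option autoImplicit false

open Finset Pool.Agent.H15.IX
open MvPolynomial

namespace Pool.Agent.H80.IX

theorem fin_wt {ι : Type} [Fintype ι] {pos : ι → ℕ} (hpos : ∀ i, 1 ≤ pos i) (a : ℤ) :
    {κ : ι → ℕ | ((∑ i, κ i * pos i : ℕ) : ℤ) = a}.Finite := by
  refine (Set.Finite.pi (fun _ : ι => Set.finite_Iic a.toNat)).subset ?_
  intro κ hκ i _
  simp only [Set.mem_ofPred_eq] at hκ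
  simp only [Set.mem_Iic]
  have h1 : κ i * pos i ≤ ∑ i, κ i * pos i :=
    Finset.single_le_sum (f := fun i => κ i * pos i) (fun _ _ => Nat.zero_le _) (mem_univ i)
  have h2 : κ i ≤ κ i * pos i := Nat.le_mul_of_pos_right _ (hpos i)
  omega

theorem Wc_sum {p q : ℕ} (hp : p.Prime) (hWCL : T_WCL) {α : Type} (s : Finset α)
    (F : α → ℤ → ZMod p) (hF : ∀ x, Wc p q (F x)) :
    Wc p q (fun a => ∑ x ∈ s, F x a) := by
  classical
  have : Fact p.Prime := ⟨hp⟩
  induction s using Finset.induction_on with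
  | empty =>
    refine ⟨1, by simp, 0, fun a _ => ?_⟩
    unfold act
    simp
  | insert x s hx ih =>
    have := (hWCL p hp).1 q (F x) _ (hF x) ih
    convert this using 2 with a
    rw [Finset.sum_insert hx]

theorem pf_WN2 (hWCL : T_WCL) (hWN1 : T_WN1) : T_WN2 := by
  classical
  intro p ι _ pos J N j hp hpos hJ hj
  obtain ⟨hadd, hsm, hsh, hmono, -, -, hev⟩ := hWCL p hp
  -- the tail vectors
  obtain ⟨P, hP⟩ : ∃ P : Set ({i // ¬ pos i ≤ j} → ℕ), P = {ρ |
    ((∑ i : {i // ¬ pos i ≤ j}, ρ i * (pos i - j) : ℕ) : ℤ) = N j ∧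
      ∀ j' ∈ J, j < j' →
        N j' ≤ ((∑ i : {i // ¬ pos i ≤ j}, ρ i * (pos i - j') : ℕ) : ℤ)} := ⟨_, rfl⟩
  have hPfin : P.Finite := by
    have h := fin_wt (pos := fun i : {i // ¬ pos i ≤ j} => pos i - j)
      (fun i => by have := i.2; omega) (N j)
    refine h.subset ?_
    intro ρ hρ
    rw [hP] at hρ
    exact hρ.1
  haveI : Fintype P := hPfin.fintype
  -- the splitting
  have hcard : ∀ a : ℤ, Nat.card {κ : ι → ℕ // ((∑ i, κ i * pos i : ℕ) : ℤ) = a ∧
      (∀ j' ∈ J, j' ≠ j → N j' ≤ ((∑ i, κ i * (pos i - j') : ℕ) : ℤ)) ∧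
      ((∑ i, κ i * (pos i - j) : ℕ) : ℤ) = N j} =
      ∑ ρ : P, Hc (fun i : {i // pos i ≤ j} => pos i) (J.filter (fun j' => j' < j))
        (a - ((∑ i, ρ.1 i * pos i : ℕ) : ℤ))
        (fun j' => N j' - ((∑ i, ρ.1 i * (pos i - j') : ℕ) : ℤ)) := by
    intro a
    have hfin : ∀ ρ : P, Finite {κ : {i // pos i ≤ j} → ℕ //
        ((∑ i, κ i * pos i : ℕ) : ℤ) = a - ((∑ i, ρ.1 i * pos i : ℕ) : ℤ) ∧
        ∀ j' ∈ J.filter (fun j' => j' < j), N j' - ((∑ i, ρ.1 i * (pos i - j') : ℕ) : ℤ) ≤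
          ((∑ i, κ i * (pos i - j') : ℕ) : ℤ)} := by
      intro ρ
      refine Set.Finite.to_subtype ((fin_wt (pos := fun i : {i // pos i ≤ j} => pos i)
        (fun i => hpos i) (a - ((∑ i, ρ.1 i * pos i : ℕ) : ℤ))).subset ?_)
      intro κ hκ
      exact hκ.1
    have hsplit : ∀ (κ : ι → ℕ) (f : ι → ℕ), ∑ i, κ i * f i =
        ∑ i : {i // pos i ≤ j}, κ i * f i + ∑ i : {i // ¬ pos i ≤ j}, κ i * f i :=
      fun κ f => (Fintype.sum_subtype_add_sum_subtype (fun i => pos i ≤ j)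
        (fun i => κ i * f i)).symm
    have hA0 : ∀ (κ : {i // pos i ≤ j} → ℕ) (j' : ℕ), j ≤ j' →
        ∑ i : {i // pos i ≤ j}, κ i * (pos i - j') = 0 := by
      intro κ j' hj'
      refine Finset.sum_eq_zero fun i _ => ?_
      have := i.2
      rw [Nat.sub_eq_zero_of_le (by omega), mul_zero]
    unfold Hc
    rw [← Nat.card_sigma]
    refine Nat.card_congr ?_
    refine Equiv.ofBijective (fun κ => ⟨⟨fun i => κ.1 i, ?_⟩, ⟨fun i => κ.1 i, ?_, ?_⟩⟩)
      ⟨?_, ?_⟩
    · rw [hP]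
      obtain ⟨κ, h1, h2, h3⟩ := κ
      refine ⟨?_, ?_⟩
      · have h4 := h3
        rw [hsplit, hA0 (fun i => κ i) j le_rfl, zero_add] at h4
        exact h4
      · intro j' hj' hlt
        have := h2 j' hj' (by omega)
        rw [hsplit, hA0 (fun i => κ i) j' hlt.le, zero_add] at this
        exact this
    · obtain ⟨κ, h1, h2, h3⟩ := κ
      have h4 := h1
      rw [hsplit] at h4
      simp only
      push_cast at h4 ⊢
      linarith
    · obtain ⟨κ, h1, h2, h3⟩ := κ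
      intro j' hj'
      rw [Finset.mem_filter] at hj'
      have := h2 j' hj'.1 (by omega)
      rw [hsplit] at this
      simp only
      push_cast at this ⊢
      linarith
    · -- injective
      rintro ⟨κ, hκ⟩ ⟨κ', hκ'⟩ h
      rw [Subtype.mk.injEq]
      have ha := congrArg (fun x => x.1.1) h
      have hb := congrArg (fun x => x.2.1) h
      funext i
      by_cases hi : pos i ≤ j
      · exact congrFun hb ⟨i, hi⟩
      · exact congrFun ha ⟨i, hi⟩
    · -- surjective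
      rintro ⟨⟨ρ, hρ⟩, ⟨κ, h1, h2⟩⟩
      have hρ' := hρ
      rw [hP] at hρ'
      obtain ⟨hρ1, hρ2⟩ := hρ'
      obtain ⟨g, hg⟩ : ∃ g : ι → ℕ, g = fun i => if h : pos i ≤ j then κ ⟨i, h⟩ else ρ ⟨i, h⟩ :=
        ⟨_, rfl⟩
      have hgA : (fun i : {i // pos i ≤ j} => g i) = κ := by
        funext i
        rw [hg]
        simp only
        rw [dif_pos i.2]
      have hgB : (fun i : {i // ¬ pos i ≤ j} => g i) = ρ := by
        funext i
        rw [hg]
        simp only
        rw [dif_neg i.2]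
      have hgs : ∀ f : ι → ℕ, ∑ i, g i * f i =
          ∑ i : {i // pos i ≤ j}, κ i * f i + ∑ i : {i // ¬ pos i ≤ j}, ρ i * f i := by
        intro f
        rw [hsplit, ← hgA, ← hgB]
      refine ⟨⟨g, ?_, ?_, ?_⟩, ?_⟩
      · rw [hgs]
        simp only at h1
        push_cast at h1 ⊢
        linarith
      · intro j' hj' hne
        rw [hgs]
        rcases lt_or_gt_of_ne hne with hlt | hlt
        · have := h2 j' (Finset.mem_filter.mpr ⟨hj', hlt⟩)
          simp only at this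
          push_cast at this ⊢
          linarith
        · rw [hA0 κ j' hlt.le, zero_add]
          exact hρ2 j' hj' hlt
      · rw [hgs, hA0 κ j le_rfl, zero_add]
        exact hρ1
      · subst hgA
        subst hgB
        rfl
  -- the difference
  have hdiff : ∀ a : ℤ, (Hc pos J a N : ZMod p) -
      (Hc pos J a (Function.update N j (N j + 1)) : ZMod p) =
      ∑ ρ : P, (Hc (fun i : {i // pos i ≤ j} => pos i) (J.filter (fun j' => j' < j))
        (a - ((∑ i, ρ.1 i * pos i : ℕ) : ℤ))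
        (fun j' => N j' - ((∑ i, ρ.1 i * (pos i - j') : ℕ) : ℤ)) : ZMod p) := by
    intro a
    rw [← Nat.cast_sum, ← hcard a]
    have hS1 : {κ : ι → ℕ | ((∑ i, κ i * pos i : ℕ) : ℤ) = a ∧
        ∀ j' ∈ J, N j' ≤ ((∑ i, κ i * (pos i - j') : ℕ) : ℤ)}.Finite :=
      (fin_wt hpos a).subset fun κ hκ => hκ.1
    have hsub : {κ : ι → ℕ | ((∑ i, κ i * pos i : ℕ) : ℤ) = a ∧
        ∀ j' ∈ J, (Function.update N j (N j + 1)) j' ≤
          ((∑ i, κ i * (pos i - j') : ℕ) : ℤ)} ⊆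
        {κ : ι → ℕ | ((∑ i, κ i * pos i : ℕ) : ℤ) = a ∧
        ∀ j' ∈ J, N j' ≤ ((∑ i, κ i * (pos i - j') : ℕ) : ℤ)} := by
      rintro κ ⟨h1, h2⟩
      refine ⟨h1, fun j' hj' => ?_⟩
      have := h2 j' hj'
      by_cases h : j' = j
      · subst h
        rw [Function.update_self] at this
        omega
      · rw [Function.update_of_ne h] at this
        exact this
    have hd := Set.ncard_sdiff_add_ncard_of_subset hsub hS1
    have hset : {κ : ι → ℕ | ((∑ i, κ i * pos i : ℕ) : ℤ) = a ∧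
        ∀ j' ∈ J, N j' ≤ ((∑ i, κ i * (pos i - j') : ℕ) : ℤ)} \
        {κ : ι → ℕ | ((∑ i, κ i * pos i : ℕ) : ℤ) = a ∧
        ∀ j' ∈ J, (Function.update N j (N j + 1)) j' ≤
          ((∑ i, κ i * (pos i - j') : ℕ) : ℤ)} =
        {κ : ι → ℕ | ((∑ i, κ i * pos i : ℕ) : ℤ) = a ∧
      (∀ j' ∈ J, j' ≠ j → N j' ≤ ((∑ i, κ i * (pos i - j') : ℕ) : ℤ)) ∧
      ((∑ i, κ i * (pos i - j) : ℕ) : ℤ) = N j} := by
      ext κ
      constructor
      · rintro ⟨⟨h1, h2⟩, h3⟩
        refine ⟨h1, fun j' hj' _ => h2 j' hj', ?_⟩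
        by_contra hne
        apply h3
        refine ⟨h1, fun j' hj' => ?_⟩
        by_cases h : j' = j
        · subst h
          rw [Function.update_self]
          have := h2 j' hj'
          omega
        · rw [Function.update_of_ne h]
          exact h2 j' hj'
      · rintro ⟨h1, h2, h3⟩
        refine ⟨⟨h1, fun j' hj' => ?_⟩, ?_⟩
        · by_cases h : j' = j
          · subst h
            exact h3.ge
          · exact h2 j' hj' h
        · rintro ⟨-, h4⟩
          have := h4 j hj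
          rw [Function.update_self] at this
          omega
    rw [hset] at hd
    have e1 : Hc pos J a N = {κ : ι → ℕ | ((∑ i, κ i * pos i : ℕ) : ℤ) = a ∧
        ∀ j' ∈ J, N j' ≤ ((∑ i, κ i * (pos i - j') : ℕ) : ℤ)}.ncard := rfl
    have e2 : Hc pos J a (Function.update N j (N j + 1)) =
        {κ : ι → ℕ | ((∑ i, κ i * pos i : ℕ) : ℤ) = a ∧
        ∀ j' ∈ J, (Function.update N j (N j + 1)) j' ≤
          ((∑ i, κ i * (pos i - j') : ℕ) : ℤ)}.ncard := rfl
    rw [e1, e2, ← hd]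
    push_cast
    rw [add_sub_cancel_right]
    rfl
  have hq : ∑ i ∈ univ.filter (fun i => pos i ≤ j), wp p (pos i) =
      ∑ i : {i // pos i ≤ j}, wp p (pos i) := by
    rw [Finset.sum_subtype (univ.filter (fun i => pos i ≤ j)) (p := fun i => pos i ≤ j)
      (fun i => by simp)]
  have hfun : (fun a => (Hc pos J a N : ZMod p) -
      (Hc pos J a (Function.update N j (N j + 1)) : ZMod p)) = fun a => ∑ ρ : P,
      (Hc (fun i : {i // pos i ≤ j} => pos i) (J.filter (fun j' => j' < j))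
        (a - ((∑ i, ρ.1 i * pos i : ℕ) : ℤ))
        (fun j' => N j' - ((∑ i, ρ.1 i * (pos i - j') : ℕ) : ℤ)) : ZMod p) := funext hdiff
  rw [hq, hfun]
  refine Wc_sum hp hWCL univ (fun ρ : P => fun a =>
    (Hc (fun i : {i // pos i ≤ j} => pos i) (J.filter (fun j' => j' < j))
        (a - ((∑ i, ρ.1 i * pos i : ℕ) : ℤ))
        (fun j' => N j' - ((∑ i, ρ.1 i * (pos i - j') : ℕ) : ℤ)) : ZMod p)) ?_
  intro ρ
  exact hsh _ _ _ (hWN1 p {i // pos i ≤ j} (fun i => pos i) (J.filter (fun j' => j' < j))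
    (fun j' => N j' - ((∑ i, ρ.1 i * (pos i - j') : ℕ) : ℤ)) hp (fun i => hpos i)
    (fun j' hj' => hJ j' (Finset.mem_filter.mp hj').1))

end Pool.Agent.H80.IX
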